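import Pool.Agent.Q107.DSP.Final

/-!
# The distance spectrum does not determine bipartiteness

There are two connected graphs on `20` vertices with the same distance spectrum, one bipartite (a
blow-up of the path with four vertices, with parts of sizes `3, 2, 14, 1`) and one with a triangle.
-/

namespace Pool.Agent.Results.MP_69260a_co.BipartiteNotDetermined

/-- the distance matrix, with the entries `d(x, y)` -/
noncomputable def distMatrix {n : ℕ} (G : SimpleGraph (Fin n)) : Matrix (Fin n) (Fin n) ℝ :=
  Matrix.of fun x y => (G.dist x y : ℝ)

/-- the distance spectrum: the multiset of the roots of the characteristic polynomial of the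
distance matrix (which is real and symmetric, so that these are its `n` eigenvalues) -/
noncomputable def distanceSpectrum {n : ℕ} (G : SimpleGraph (Fin n)) : Multiset ℝ :=
  (distMatrix G).charpoly.roots

theorem result : ∃ (n : ℕ) (G H : SimpleGraph (Fin n)), G.Connected ∧ H.Connected ∧
    (distMatrix G).charpoly = (distMatrix H).charpoly ∧
    distanceSpectrum G = distanceSpectrum H ∧ G.IsBipartite ∧ ¬ H.IsBipartite := by
  have h : (distMatrix Q107.DSP.G₂).charpoly = (distMatrix Q107.DSP.G₁).charpoly :=
    Q107.DSP.cospectral.symm
  exact ⟨20, Q107.DSP.G₂, Q107.DSP.G₁, Q107.DSP.dist₂.1, Q107.DSP.dist₁.1, h,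
    congrArg Polynomial.roots h, Q107.DSP.bip₂, Q107.DSP.not_bip₁⟩

end Pool.Agent.Results.MP_69260a_co.BipartiteNotDetermined
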